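import Pool.Agent.Zk13.Rm.Main

/-!
# The Tate conjecture for the members of families of symplectic motives of all ranks and weights, with coefficients in arbitrary fields, all of them together

Let `M j`, for `j` in a finite set `J`, be families of polarized pure motives over `ℚ`, over open subsets
`U j` (the complements of the zeros of the binary forms `D j`) of the projective line. The families are
given by the `ℓ`-adic realizations of the members `M j t`, for all `ℓ`, and they may have different
weights `w j`, different bad prime numbers (the divisors of `m j`), different algebras of coefficients
`E j = ℚ[x] / (P j)` (number fields, or products of number fields) and different ranks `n j` over `E j`.
The polarizations are alternating, and `E j` acts by operators which are self-adjoint. The action of `E j`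
need not be defined over `ℚ`: the Galois group may act on the algebra `E j`. Suppose that, for all `j`
(`CoefFamily`),

* at some closed point of the projective line (the zeros of a binary form) the local monodromy is
  maximally unipotent over `E j` (one Jordan block on every eigenspace of `E j`);
* if `n j ≥ 4`, at some other closed point it has an element which is unipotent, different from `1` on all
  eigenspaces, and has more than one Jordan block (for example a transvection over `E j`);
* if `E j ≠ ℚ`, at some closed point the local monodromies on the different eigenspaces of `E j` are
  different, also up to sign.

Examples: families with coefficients `ℚ`, for example the families of elliptic curves with multiplicative
reduction at some point and the mirror families of Calabi-Yau threefolds with a conifold point; the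
families of the abelian varieties with real multiplication of Darmon, for example the jacobians of the
hyperelliptic curves for the equation `x ^ p + y ^ p = z ^ r` (where `E` is the maximal real
subfield of the field of the `r`-th roots of unity, and its action is not defined over `ℚ`); and the
hypergeometric motives `H(α, 0; t)` where `α` is a symmetric set (`α = -α`) of fractions with odd
denominators, of all (even) ranks `n`, with all their conjugates `H(u α, 0; t)`: here `E` is the totally
real abelian field fixed by the `u` with `u α = α`, and the Galois group permutes the conjugates. The
algebra `E` may also be `ℚ ^ r`, with `P = (x - 1) ⋯ (x - r)`, where the Galois group permutes the factors:
so the theorem applies to the restrictions of scalars of families over number fields `K` of degree `r`,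
that is to the members at rational points of families of motives over `K` (the last condition says then
that the conjugate families have different local monodromies at some cusp, for example at a point which
generates `K` and is a cusp of the family but its conjugates are not). These are examples: the theorem is
about the families which satisfy the conditions `CoefFamily`, and that a given geometric family does is
part of the literature on this family, not of the Lean text.

Theorem. Let `B` be a finite set of prime numbers. There is a set `S` of rational points of the
projective line which contains 100 percent of the rational points, ordered by height, such that for ANY
finite set of members `M (j x) (t x)` with `t x` in `S` which are pairwise apart, EVERY prime number `ℓ` and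
EVERY representation `σ` of the Galois group of `ℚ` on a vector space over `ℚ_ℓ` which is unramified
outside of `B` and `ℓ` (for example the realization of any motive `Z` with good reduction outside of
`B`, of any type and any dimension):

* the sum of these members is a semisimple representation of all subgroups of finite index;
* all Tate classes, over all number fields, of all tensor products of `Z` and of members, are linear
  combinations of products of the forms `ω x (a x ^ i u, v)`, where `ω x` is the polarization and `a x` the
  generator of the coefficients of `M (j x) (t x)`, and of Tate classes of `Z`.

So the Tate conjecture holds for all motives in the tensor category generated by all these members (if
their polarizations and coefficients are algebraic), and for the tensor products of these motives with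
`Z` it is reduced to the Tate conjecture for `Z`.

Two members are apart (`Apart`) in each of the following four cases. (1) The ranks are different; there
is then no other condition. (2) There are two prime numbers outside of the bad ones at which the local
monodromies of the two members are different. So members of any families over points `t`, `t'` are
apart if two such primes divide `C(t)` exactly once and do not divide `D'(t')`, where `C` is a cusp of the
first family; this holds for 100 percent of the pairs of rational points. (3) The members belong to
different families, at the same point, and the local monodromies of these two families are different at
some closed point. (4) They are members of the same or of different families, at different points,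
and three rational points are special for the two families: the local monodromy of one family at these
points is different from the local monodromy of the other family at all other points. This holds for
the families `H(α, 0; t)` with `n ≥ 4` as above, for the points `0`, `1` and `∞`. So for 100 percent of the
rational points `t` the motives `H(α, 0; t)` of all the given ranks `n ≥ 4`, weights and fields of
coefficients satisfy the Tate conjecture, all of them together. For a single member there is nothing to
verify.

The proof. (1) `Pool.Agent.Zk13.Rm.irr_E`: the eigenspaces of the coefficients are irreducible over the
algebraic closure for the group `G` of the elements which commute with the coefficients and on which the
cyclotomic character is trivial. Since the local monodromy `τ` has one Jordan block, a subspace of an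
eigenspace of dimension `u` which is stable under `G` is the kernel of `(τ - 1) ^ u`. So all its conjugates
have the same form, their sum is the intersection of the kernel of `(τ - 1) ^ u` with a sum of
eigenspaces, it is defined over `ℚ_ℓ` and stable under the whole Galois group. By the theorem on abelian
representations and the purity of the weights its determinant is, up to a character of finite order, a
power of the cyclotomic character, in contradiction to the action of the Frobenius elements on the Jordan
blocks. (2) The Lie algebra of the sum of all eigenspaces of all
members is the product of the symplectic Lie algebras; this is the theorem of the library for a simple
Lie algebra with a regular nilpotent element, and the lemma of Goursat, Kolchin and Ribet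
(`Pool.Agent.Zk13.sum_tateM`). (3) The first fundamental theorem gives the Tate classes over the
algebraic closure, and they descend (`Pool.Agent.Zk13.Rm.descend_R`). (4) The sieve for the points and
their primes (`Pool.Agent.Zk13.almostAll_separated`).
-/

set_option autoImplicit false

namespace Pool.Agent.Results.MP_3703a7_ag.CoefficientFamilies

open Polynomial Pool.Agent.Y114.TF Pool.Agent.N978.HP Pool.Agent.H204R3.GP Pool.Agent.Zk13
  Pool.Agent.Zk13.Rm

theorem result (J : Type) [Fintype J]
    -- the coefficients, ranks, weights, bad prime numbers and bad points of the families
    (P : J → ℚ[X]) (n w m : J → ℕ) (D : J → MvPolynomial (Fin 2) ℤ)
    -- the members of the families
    (M : ∀ j, Pt → CoefMotive (P j) (n j) Gal(AlgebraicClosure ℚ/ℚ))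
    (h : ∀ j, CoefFamily (M j) (w j) (m j) (D j)) (B : Finset ℕ) :
    ∃ S : Set Pt, AlmostAll (fun t => t ∈ S) ∧
      -- any finite set of members which are pairwise apart
      ∀ (κ : Type) [Fintype κ] (j : κ → J) (t : κ → Pt), (∀ x, t x ∈ S) →
      (∀ x y, x ≠ y → Apart (M (j x)) (m (j x)) (D (j x)) (M (j y)) (m (j y)) (D (j y))
        (∏ i, m i) (t x) (t y)) →
      -- any prime number, and any representation which is unramified outside of `B`
      ∀ (ℓ : ℕ) [Fact ℓ.Prime] (Z : Type) [AddCommGroup Z] [Module ℚ_[ℓ] Z]
        (σ : Representation ℚ_[ℓ] Gal(AlgebraicClosure ℚ/ℚ) Z), UnramifiedOutside σ B →
      FiniteIndexSemisimple (sumRep fun x => (M (j x) (t x)).ρ ℓ) ∧
      CoefTateWith (fun x => (M (j x) (t x)).ρ ℓ) (fun x => (M (j x) (t x)).χ ℓ)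
        (fun x => (M (j x) (t x)).ω ℓ) (fun x => (M (j x) (t x)).a ℓ) σ :=
  coef_together h B

end Pool.Agent.Results.MP_3703a7_ag.CoefficientFamilies
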