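import Pool.Agent.Zk13.Pol.Main

/-!
# The Tate conjecture for the members of families of orthogonal or symplectic motives

Let `M j t`, where `j` runs through a finite set `J` and `t` through the rational points of an open
subset `U` of the projective line over `ℚ` (the complement of the zeros of the binary form `D`), be
the `ℓ`-adic realizations, for all `ℓ`, of the members of finitely many families of polarized pure
motives of rank `n` and weight `w` over `U`. The polarizations are alternating (`ε = -1`, for
example the cohomology of odd degree), or symmetric (`ε = 1`, even degree) with `n ≥ 3`. Suppose that
each family satisfies the following conditions on its LOCAL monodromy (`BigFamily`).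

* Regular cusps. For every `0 < d < n` there are cusps (the zeros of a binary form `C` without multiple
  zeros, for example a rational point) with regular local monodromy with a characteristic polynomial
  `∏ Φ_k ^ (e k)`, `k` in a finite set `A`, (one Jordan block of size `e k` for every primitive `k`-th
  root of unity), such that no product over a subset of `A` has degree `d`, and such that infinitely
  many prime numbers divide values of `C` and are primitive roots modulo all `k` in `A` (Dirichlet's
  theorem if `C` is a rational point and the `k` in `A` have a common primitive root).
* Cusps with the local monodromy of Picard and Lefschetz (ordinary double points), again the zeros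
  of a binary form, with one of the following: (a) it is a rational point, and no local
  monodromy permutes subspaces of dimension `d ≥ 2` with `d ∣ n`; (b) some local monodromy of the
  family has a Jordan block of size greater than `n / 2`; (c) `n` is a prime number.
* If `ε = 1`, some local monodromy of the family has infinite order.

Theorem. Let `B` be a finite set of prime numbers. There is a set `S` which contains 100 percent of the
rational points of the projective line, ordered by height, such that for each member over a point of
`S`, or any finite number of members `M (j x) (t x)` over different points of `S` if three rational
points of the projective line have special local monodromy (`SpecialPoint`), for EVERY prime number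
`ℓ` and EVERY representation `σ` of the Galois group of `ℚ` on a vector space over `ℚ_ℓ` which is
unramified outside of `B` and `ℓ`, for example the realization of any motive `Z` over `ℚ` with good
reduction outside of `B`:

* the sum `V` of the `M (j x) (t x)` is a semisimple representation of all subgroups of finite index;
* for every number field `K` all Tate classes over `K` in the tensor products of `Z` and of tensor
  powers of (the dual of) `V` are linear combinations of products of the polarizations of the
  summands, of determinants of summands, if `ε = 1`, and of Tate classes over `K` of twists of `Z`
  (`TateOver`; `Z` is twisted by powers of the cyclotomic character and these determinants, which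
  are quadratic characters up to a twist).

So, in the category of motives generated by all the members over points of `S` (in which the
polarizations and, if `ε = 1`, the determinants are algebraic or at least motivated classes) the map
of the conjecture is bijective, for all number fields and all primes, and its
surjectivity for the tensor products with `Z` is reduced to the Tate conjecture for `Z`.

Examples. All families of hypergeometric motives over `ℚ`, of even or odd weight, of any rank and
with any Hodge numbers, with `T_0`, `T_∞` regular with characteristic polynomials `∏ Φ_k ^ (e k)`
and `∏ Φ_k ^ (f k)` which have no common partial product degree, if the `k` have a common
primitive root, and with (a), (b) or (c). Here `T_1` is a reflection (even weight) or a transvection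
(odd weight). A point with maximally unipotent monodromy (`A = {1}`) satisfies the first condition and
(b) and the last condition: so all one-parameter families with maximally unipotent monodromy at a
rational point (or the zeros of some binary form) and ordinary double points at the zeros of
another binary form are examples, like all the operators of Calabi-Yau type with conifold points, the
families of K3 surfaces of Picard number 19 (rank 3) over a rational modular curve or the Dwork
families in all dimensions.

What was known. For one fixed `ℓ` and one member, results of this kind hold for 100 percent of the
`t` if the geometric monodromy is large (Serre, Terasoma), but the exceptional set depends on `ℓ`.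
The library has families of odd weight with maximally unipotent monodromy, for all `ℓ`. New are the
even weights, regular cusps which are not maximally unipotent, several cusps together, cusps which
are not rational, and the joint result for all members of several families.

The proof.
(1) Irreducibility for all `ℓ`. Let `p` be a prime number which divides `C(t)` exactly once and is a
primitive root modulo the `k` in `A`. A subspace of `M t` which is stable under the Galois group is, at
`p`, the kernel of `∏ Φ_k ^ (u k)` of a generator of the tame inertia; the square of the determinant
of Frobenius on it is computed with the polarization, it has the weight of a stable subspace of a
pure representation, plus `∑ φ(k) u(k) (e(k) - u(k))`. A power of the determinant is an abelian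
character which is unramified at `p`, so its weight is the same at all primes
(`Y114.MU.two_weights`, by transcendence theory), and `u(k)` is `0` or `e(k)` (`Regm`, `Regn`).
Such primes exist for 100 percent of the points: `Closed` (Chebotarev's theorem for the zeros of
forms), `Exact` (a sieve for primes which divide a form exactly), `Sieve`.
(2) Primitivity. The vectors of the transvections or reflections in the image form orthogonal blocks,
permuted transitively by the Galois group, of dimension at least two. In case (a) the fixed
field of a block is unramified outside of `2 m` at `ℓ = 2`, so it is one of finitely many fields
(Hermite, Minkowski), Frobenius elements at primes which divide `meet t c` exactly fix blocks and are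
in all classes, and by the lemma of Jordan there is only one block; the result is transferred to all
`ℓ` with traces of Frobenius elements (`Prim`, `Pot`).
(3) A reflection group argument shows that all subgroups of finite index act absolutely irreducibly
(`Refl`), and that a Lie algebra of skew maps stable under the group is everything (`Orth`). The
projections to two members are compared with a theorem that isomorphisms of two orthogonal Lie
algebras which commute with reflections come from similitudes (`Iso`, `Iso2`, `Iso3`); for 100
percent of the points all members over other points of smaller height are separated by a
prime (`Zk13.Count`).
(4) The logarithms of unipotent elements in inertia groups where `Z` is unramified kill all Tate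
classes with values in `Z`, so the orthogonal or symplectic Lie algebras do (`SumO`, `TateS`), and
the invariants are given by the first fundamental theorem for products of special orthogonal groups
(`FftO`, `FftP`) or symplectic groups.
-/

set_option autoImplicit false

namespace Pool.Agent.Results.MP_3703a7_ag.FamiliesOfBothParities

open Pool.Agent.Y114.TF Pool.Agent.N978.HP Pool.Agent.H204R3.GP Pool.Agent.Zk13
  Pool.Agent.Zk13.Pol

theorem result {n : ℕ} {ε : ℤ} {J : Type} [Fintype J] [Nonempty J]
    -- the realizations of the members of the families
    (M : J → Pt → Motive n ε Gal(AlgebraicClosure ℚ/ℚ)) (w m : ℕ) (D : MvPolynomial (Fin 2) ℤ)
    (h : ∀ j, BigFamily (M j) w m D) (B : Finset ℕ) :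
    ∃ S : Set Pt, AlmostAll (fun t => t ∈ S) ∧ ∀ (κ : Type) [Fintype κ] (j : κ → J) (t : κ → Pt),
      (∀ x, t x ∈ S) → (∀ x y, x ≠ y → meet (t x) (t y) ≠ 0) →
      (Subsingleton κ ∨ ∃ c : Fin 3 → Pt, Distinct c ∧
        ∀ i j j', SpecialPoint (M j) m D (M j') (c i)) →
      ∀ (ℓ : ℕ) [Fact ℓ.Prime] (χ : Gal(AlgebraicClosure ℚ/ℚ) →* ℚ_[ℓ]),
      (∀ g, χ g * ((cyclotomicCharacter (AlgebraicClosure ℚ) ℓ g : ℤ_[ℓ]) : ℚ_[ℓ]) ^ w = 1) →
      ∀ (Z : Type) [AddCommGroup Z] [Module ℚ_[ℓ] Z]
        (σ : Representation ℚ_[ℓ] Gal(AlgebraicClosure ℚ/ℚ) Z), UnramifiedOutside σ B →
      FiniteIndexSemisimple (sumRep fun x => (M (j x) (t x)).ρ ℓ) ∧
        ∀ Δ : Subgroup Gal(AlgebraicClosure ℚ/ℚ), Δ.FiniteIndex →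
          TateOver ε (fun x => (M (j x) (t x)).ρ ℓ) χ (fun x => (M (j x) (t x)).ω ℓ) σ Δ :=
  families_almostAll h B

end Pool.Agent.Results.MP_3703a7_ag.FamiliesOfBothParities
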