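import Pool.Agent.Zk50.IR.Main

/-!
# The index of the Tate classes on the powers of a variety is independent of `p` or infinite

Let `X` be a smooth projective variety over a number field, `W` the Betti cohomology with rational
coefficients (over an algebraic closure), and consider all *realizations* `R` of `X`
(`Realization`): a Weil cohomology with a comparison isomorphism with the extension of the
coefficients of `W`, and a group `Γ` acting on the cohomology of all powers `X ^ (n + 1)` like a
Galois group. The main examples are the `p`-adic etale cohomologies with the absolute Galois group,
for all primes `p`; another one is the cohomology with complex coefficients with the action of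
`ℂˣ × ℂˣ` given by the Hodge decomposition, whose Tate classes are the classes of type `(j, j)`.
`R.tate n j` is the space of the Tate classes of codimension `j` on `X ^ (n + 1)`: the classes on
which some subgroup of finite index acts by the `j`-th power of the cyclotomic character.

*Absolute Tate classes* (`absTate`) are the rational classes (elements of the cohomology `W`) whose
images in all realizations are Tate classes; in particular they are Hodge classes.

*Theorem.* Let `N₀` be the index of the absolute Tate classes and `N_R` the index of the Tate
classes of `R`: the limits, for `n → ∞`, of the quotients of the dimension of the space of these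
classes on `X ^ (n + 1)` and of the rank of the group of algebraic cycles modulo numerical
equivalence. They exist in `{1, 2, 3, ..., ∞}`. For every realization `R` either `N_R = ∞` or
`N_R = N₀`, and in the second case the Tate classes of `R` are the linear combinations of the
absolute Tate classes: they have a rational structure, which does not depend on `R`. If `N₀` is
finite then homological and numerical equivalence agree for all powers of `X`.

No standard conjecture and no semisimplicity, weights or Frobenius elements are used.
-/

open CategoryTheory AlgebraicGeometry Filter Topology

open scoped ENNReal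

universe u v w

namespace Pool.Agent.Results.MP_3703a7_ag.IndexRigidity

open Pool.Agent.H914 Pool.Agent.H914.VarClass Pool.Agent.H914.VarClass.Obj
  Pool.Agent.H914.WeilCohomology Pool.Agent.Y129 Pool.Agent.Zk50.IR

/-- **The index of the Tate classes is independent of the realization or infinite.** -/
theorem result {k : Type u} [Field k] {𝒱 : VarClass k} {ops : CycleOps 𝒱}
    (W : WeilCohomology.{u, v} ops) (X : 𝒱.Obj) [Nontrivial (W.H X)] :
    ∃ N₀ : ℕ∞, 1 ≤ N₀ ∧
      Tendsto (fun n => (absDim.{u, v, w} W X n : ℝ≥0∞) / cycRank ops (pw X n)) atTop
        (𝓝 (N₀ : ℝ≥0∞)) ∧
      (N₀ = 1 ↔ AbsAlgebraic.{u, v, w} W X ∧ ∀ n, HomEqNum W (pw X n)) ∧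
      (N₀ ≠ ⊤ → ∀ n, HomEqNum W (pw X n)) ∧
      ∀ R : Realization.{u, v, w} W X, ∃ N : ℕ∞, N₀ ≤ N ∧
        Tendsto (fun n => (R.dim n : ℝ≥0∞) / cycRank ops (pw X n)) atTop (𝓝 (N : ℝ≥0∞)) ∧
        (N = 1 ↔ R.TateConj ∧ ∀ n, HomEqNum W (pw X n)) ∧
        (N ≠ ⊤ → N = N₀ ∧ R.IsAbsolute) :=
  abs_index W X

end Pool.Agent.Results.MP_3703a7_ag.IndexRigidity
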