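import Pool.Agent.Zk13.Uni.MainJ

/-!
# The Tate conjecture for the members of families of motives with an automorphism of finite order

Let `M j t`, where `j` runs through a finite set `J` and `t` through the rational points of an open
subset `U` of the projective line over `ℚ` (the complement of the zeros of the binary form `D`), be
the `ℓ`-adic realizations, for all `ℓ`, of the members of finitely many families of polarized pure
motives of weight `w` and rank `n φ(k)` over `U`, with an automorphism `a` which preserves the
polarization and whose eigenvalues are the primitive `k`-th roots of unity, `k ≥ 3`: hermitian motives
of rank `n` over `ℚ(ζ_k)` (`CycMotive`), for example the new part of the cohomology of `k`-fold cyclic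
coverings. The conditions on each family are on the LOCAL monodromy (`UnitaryFamily`):

* at some cusps (the zeros of a binary form without multiple zeros, for example a rational point) the
  local monodromy, up to a power of `a`, is regular on the eigenspaces of `a`: for each primitive `r`-th
  root of unity it has one Jordan block of size `e`, `n = φ(r) e` (for example `r = 1`: maximally
  unipotent), and infinitely many prime numbers `p ≡ 1` modulo `k` which are primitive roots modulo
  `r` divide values of the form (for a rational point and `r` prime to `k` with a primitive root this
  is the theorem of Dirichlet, for `r = 1` it is always true);
* at some cusps there is a complex reflection with the eigenvalues `± ζ ^ s`, `s` prime to `k`, on the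
  eigenspaces (for the covering `y ^ k = f(x)` this happens when two zeros of `f` meet);
* for every `d < n` which divides `n` some local monodromy has a Jordan block of size greater than `d` on
  every eigenspace (for `r = 1` this is always true, and for a prime number `n` it says that some local
  monodromy has infinite order on the eigenspaces).

Theorem. Let `B` be a finite set of prime numbers. There is a set `S` which contains 100 percent of the
rational points of the projective line, ordered by height, such that for each member over a point of
`S`, or ANY finite number of members `M (j x) (t x)` over different points of `S`, if three rational
points of the projective line have special local monodromy (`UnitarySpecialPoint`: it is not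
isomorphic to the local monodromy at any other point, as an action on the Lie algebras of endomorphisms
of the eigenspaces), for EVERY prime number `ℓ`

* the sum `V` of the `M (j x) (t x)` is a semisimple representation of the Galois groups of all number
  fields;
* for every representation `Z` of the Galois group of `ℚ` which is unramified outside of `B` and `ℓ`, for
  example of any motive with good reduction outside of `B`, and every number field `F` which contains
  the `k`-th roots of unity, all Tate classes over `F` in the tensor products of `Z` and of all tensor
  powers of (the dual of) `V` are linear combinations of products of the divisor classes
  `ω x (a x ^ i u, v)` of the members and of reduced Weil classes, that is of Tate classes of the tensor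
  products of twists of `Z` and of determinants of members over `ℚ_ℓ[a x]` in which no eigenspace
  occurs together with the dual eigenspace (`UnitaryTateTogether`);
* if the determinants of some element `g` of the Galois group, for example of one Frobenius element at a
  prime number which is congruent to `1` modulo `k`, on the eigenspaces satisfy no multiplicative
  relations besides those which come from the duality of the eigenspaces for `z` and `z⁻¹`
  (`IndependentDets`), then there are no reduced Weil classes with `Z = 1`: ALL Tate classes over ALL
  number fields in all twists of all tensor powers of (the dual of) `V` are linear combinations of
  products of the divisor classes `ω x (a x ^ i u, v)` (`AllTatePolar`).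

So on all products of powers of the members over points of `S` the Tate conjecture is reduced to the
classes of Weil, that is to motives of rank one over `ℚ(ζ_k)`, and it holds if the determinants are
independent. For `φ(k) = 2` (`k = 3, 4, 6`) and one member this means that no power of
`det(g | V_z)` is a power of the cyclotomic character, which is so if the Hodge numbers of the two
eigenspaces do not have the same weighted sums `∑ p h^{p,q}`: for maximally unipotent local monodromy
this is so whenever `w ≡ n` modulo `2`. In particular there are no Tate classes in the tensor products
of different members besides these, for example no correspondences between them.

Examples: the new part of the cohomology of the curves `y ^ k = x ^ a (1 - x) ^ b (1 - t x) ^ c`, and in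
all dimensions and ranks of `y ^ k = ∏ x_i ^ (a_i) (1 - x_i) ^ (b_i) (1 - t ∏ x_i) ^ c` (hypergeometric
motives with coefficients in `ℚ(ζ_k)`), when `0` or `∞` has maximally unipotent local monodromy up to
a root of unity, and the nontrivial eigenvalue of the local monodromy at `1` is `±` a primitive `k`-th
root of unity.

What was known. For one fixed `ℓ` and one member, large image for 100 percent of the `t` follows from
large geometric monodromy (Serre, Terasoma, Hilbert's irreducibility theorem); then the exceptional set
depends on `ℓ`. The Hodge classes of general members of such families are generated by divisor classes
and classes of Weil (Weil, Schoen, Xue and Zarhin for superelliptic curves with a large Galois group).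
New are the arguments for all `ℓ` and all number fields at the same time, the tensor products with an
arbitrary `Z`, all members together, and that only the local monodromy at some cusps is used.

The proof.
(1) The eigenspaces of `a` are irreducible for the Galois group of the field of the `k`-th roots of unity,
for all `ℓ`: a stable subspace of an eigenspace and its conjugates give a stable subspace of `V`
which is, at a prime `p ≡ 1` modulo `k` which exactly divides a value of the first form, a kernel of
`Φ_r(T) ^ u`, `T = a ^ j τ`; by the theorem on the weights of abelian characters (`Y114.MU.two_weights`)
`u` is `0` or `e` (`Part`, `Wt`, `IrrQ`).
(2) The Lie algebra of skew operators on the sum which commute with `a` and kill all Tate classes with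
values in `Z` contains the logarithms of the unipotent elements of the inertia groups, and the
eigenspaces are irreducible for its components (`Blk`): otherwise they are direct sums of isotypic
parts of equal dimension `d` permuted by the group, which contradicts a Jordan block of size
greater than `d`.
(3) It is normalized by the complex reflections, and by an average over their powers its components
contain operators of rank one on each pair of dual eigenspaces, so all skew operators of trace zero,
and an ideal with an element which is not a scalar on an eigenspace contains those of this eigenspace
(`LieU`, `Ide`, `Big`, `SumB`).
(4) For two members over different points a lemma of Goursat (`SumD`) gives all skew operators of trace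
zero of one member which are zero on the other one, unless there is an isomorphism of the Lie algebras
of endomorphisms of two eigenspaces which commutes with the Galois group of the field of the `k`-th
roots of unity; this is excluded by a prime number which exactly divides `meet t c` for a special
point `c` and does not divide `meet t' c`, which for 100 percent of the `t` exists for all `t'` of
smaller height (`Zk13.Count`).
(5) The first fundamental theorem for products of special linear groups (`FftC`, `FftD`, `FftU`, `FftV`,
`SumG`); the product of the determinants of dual eigenspaces is a determinant of values of the form
(`Red`); descent from the algebraic closure to `ℚ_ℓ` (`SumH`).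
(6) A reduced Weil class gives a multiplicative relation between the determinants of a power of `g`
(`SumJ`).
-/

set_option autoImplicit false

namespace Pool.Agent.Results.MP_3703a7_ag.UnitaryFamilies

open Pool.Agent.Y114.TF Pool.Agent.N978.HP Pool.Agent.Zk13 Pool.Agent.Zk13.Pol
  Pool.Agent.Zk13.Uni

theorem result {k n : ℕ} {ε : ℤ} {J : Type} [Fintype J] [Nonempty J]
    -- the realizations of the members of the families
    (M : J → Pt → CycMotive k n ε Gal(AlgebraicClosure ℚ/ℚ)) (w m : ℕ)
    (D : MvPolynomial (Fin 2) ℤ) (h : ∀ j, UnitaryFamily (M j) w m D) (B : Finset ℕ) :
    ∃ S : Set Pt, AlmostAll (fun t => t ∈ S) ∧ ∀ (κ : Type) [Fintype κ] (j : κ → J) (t : κ → Pt),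
      (∀ x, t x ∈ S) → (∀ x y, x ≠ y → meet (t x) (t y) ≠ 0) →
      (Subsingleton κ ∨ ∃ c : Fin 3 → Pt, Distinct c ∧
        ∀ i j j', UnitarySpecialPoint (M j) m D (M j') (c i)) →
      ∀ (x₀ : κ) (ℓ : ℕ) [Fact ℓ.Prime], SumSemisimple (fun x => (M (j x) (t x)).ρ ℓ) ∧
        -- (the similitude character `χ` is the same for all members)
        (∀ (Z : Type) [AddCommGroup Z] [Module ℚ_[ℓ] Z]
          (σ : Representation ℚ_[ℓ] Gal(AlgebraicClosure ℚ/ℚ) Z), UnramifiedOutside σ B →
          ∀ Δ : Subgroup Gal(AlgebraicClosure ℚ/ℚ), Δ.FiniteIndex →
            (∀ s ∈ Δ, ∀ z : AlgebraicClosure ℚ, z ^ k = 1 → s z = z) →
            UnitaryTateTogether k (fun x => (M (j x) (t x)).ρ ℓ) ((M (j x₀) (t x₀)).χ ℓ)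
              (fun x => (M (j x) (t x)).ω ℓ) (fun x => (M (j x) (t x)).a ℓ) n σ Δ) ∧
        -- the complete case
        ∀ g : Gal(AlgebraicClosure ℚ/ℚ), (∀ z : AlgebraicClosure ℚ, z ^ k = 1 → g z = z) →
          IndependentDets (AlgebraicClosure ℚ_[ℓ]) k (fun x => (M (j x) (t x)).ρ ℓ)
            (fun x => (M (j x) (t x)).a ℓ) (cycChar ℓ g) g →
          AllTatePolar (fun x => (M (j x) (t x)).ρ ℓ) (cycChar ℓ) (fun x => (M (j x) (t x)).ω ℓ)
            (fun x => (M (j x) (t x)).a ℓ) :=
  uni_together h B

end Pool.Agent.Results.MP_3703a7_ag.UnitaryFamilies
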